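import Pool.Agent.H126R2.CDC.Decomp

set_option autoImplicit false
set_option linter.unusedSectionVars false

/-!
Faithful circuit covers for weights that are multiples of an odd number: a graph that contains a
subdivision of the Petersen graph does not have property `P_k` for any odd `k`.
-/

namespace Pool.Agent.Results.MP_3c540c_co.OddMultiples

open Finset
open Pool.Agent.H126R2.CDC (MGraph)

section defs

variable {V E : Type} [Fintype V] [DecidableEq V] [Fintype E] [DecidableEq E]

open Classical in
/-- The edge cut `δ(X)`: all edges with exactly one end in `X`. -/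
noncomputable def cut (G : MGraph V E) (X : Finset V) : Finset E :=
  univ.filter fun e => ∃ a ∈ X, ∃ b, b ∉ X ∧ G.ends e = s(a, b)

/-- `w` is admissible: `w(e) ≤ w(T - e)` for every edge cut `T` and every edge `e` of `T`. -/
def Admissible (G : MGraph V E) (w : E → ℕ) : Prop :=
  ∀ X : Finset V, ∀ e ∈ cut G X, w e ≤ ∑ f ∈ (cut G X).erase e, w f

/-- `w` is eulerian: every edge cut has even weight. -/
def Eulerian (G : MGraph V E) (w : E → ℕ) : Prop :=
  ∀ X : Finset V, Even (∑ f ∈ cut G X, w f)

/-- `(G, w)` has a faithful circuit cover. -/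
def HasCover (G : MGraph V E) (w : E → ℕ) : Prop :=
  ∃ F : Multiset (Finset E), (∀ C ∈ F, G.IsCircuit C) ∧ ∀ e, F.countP (fun C => e ∈ C) = w e

/-- Property `P_k`: every admissible eulerian weight all of whose values are multiples of `k` has a
faithful circuit cover. -/
def PropertyP (k : ℕ) (G : MGraph V E) : Prop :=
  ∀ w : E → ℕ, (∀ e, k ∣ w e) → Admissible G w → Eulerian G w → HasCover G w

end defs

/-- The vertices of the Petersen graph: `(i, false)` on the outer and `(i, true)` on the inner
pentagon. -/
abbrev PV : Type := Fin 5 × Bool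

/-- The edges of the Petersen graph: `(i, 0)` joins the outer vertices `i` and `i + 1`, `(i, 1)`
joins the outer to the inner vertex `i` and `(i, 2)` joins the inner vertices `i` and `i + 2`. -/
abbrev PE : Type := Fin 5 × Fin 3

/-- first end of an edge of the Petersen graph -/
def src : PE → PV
  | (i, 0) => (i, false)
  | (i, 1) => (i, false)
  | (i, 2) => (i, true)

/-- second end of an edge of the Petersen graph -/
def tgt : PE → PV
  | (i, 0) => (i + 1, false)
  | (i, 1) => (i, true)
  | (i, 2) => (i + 2, true)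

/-- A subdivision of the Petersen graph in `G`: distinct branch vertices `branch b` for the vertices
`b` of the Petersen graph and, for every edge `j` of the Petersen graph, a path of length `len j`
with vertices `vtx j 0, ..., vtx j (len j)` and edges `edg j 0, ..., edg j (len j - 1)` joining the
branch vertices of the two ends of `j`. The inner vertices of the paths are pairwise distinct and
they are no branch vertices. -/
structure PetersenSubdivision {V E : Type} (G : MGraph V E) where
  branch : PV → V
  len : PE → ℕ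
  vtx : PE → ℕ → V
  edg : PE → ℕ → E
  branch_inj : Function.Injective branch
  len_pos : ∀ j, 0 < len j
  start : ∀ j, vtx j 0 = branch (src j)
  finish : ∀ j, vtx j (len j) = branch (tgt j)
  ends_edg : ∀ j i, i < len j → G.ends (edg j i) = s(vtx j i, vtx j (i + 1))
  inner_inj : ∀ j i j' i', 0 < i → i < len j → 0 < i' → i' < len j' →
    vtx j i = vtx j' i' → j = j' ∧ i = i'
  inner_branch : ∀ j i b, 0 < i → i < len j → vtx j i ≠ branch b

/-- the weight 2 on the spokes and 1 on the two pentagons of the Petersen graph -/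
def cw : PE → ℕ
  | (_, 0) => 1
  | (_, 1) => 2
  | (_, 2) => 1

/-- the five circuits of length eight that alternate between spokes and the other edges -/
def inC (i : Fin 5) : PE → ℕ
  | (j, 0) => if j = i + 1 ∨ j = i + 3 then 1 else 0
  | (j, 1) => if j = i then 0 else 1
  | (j, 2) => if j = i + 1 ∨ j = i + 2 then 1 else 0

theorem inC_sum : ∀ j : PE, ∑ i : Fin 5, inC i j = 2 * cw j := by decide

theorem inC_le : ∀ (i : Fin 5) (j : PE), inC i j ≤ 1 := by decide

theorem inC_even : ∀ (i : Fin 5) (b : PV),
    ∑ j : PE, ((inC i j : ℕ) : ZMod 2) * ((if src j = b then 1 else 0) + (if tgt j = b then 1 else 0)) =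
      0 := by decide +kernel

theorem cw_even : ∀ b : PV,
    ∑ j : PE, ((cw j : ℕ) : ZMod 2) * ((if src j = b then 1 else 0) + (if tgt j = b then 1 else 0)) =
      0 := by decide +kernel

theorem src_tgt_inj : ∀ j j' : PE, src j = src j' → tgt j = tgt j' → j = j' := by decide

theorem no_reverse : ∀ j j' : PE, src j = tgt j' → tgt j ≠ src j' := by decide

theorem src_ne_tgt : ∀ j : PE, src j ≠ tgt j := by decide

namespace PetersenSubdivision

variable {V E : Type} {G : MGraph V E} (S : PetersenSubdivision G)

/-- label of a vertex of the subdivision -/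
def lab (j : PE) (i : ℕ) : PV ⊕ (PE × ℕ) :=
  if i = 0 then Sum.inl (src j) else if i = S.len j then Sum.inl (tgt j) else Sum.inr (j, i)

theorem lab_eq {j j' : PE} {i i' : ℕ} (hi : i ≤ S.len j) (hi' : i' ≤ S.len j')
    (h : S.vtx j i = S.vtx j' i') : S.lab j i = S.lab j' i' := by
  unfold lab
  by_cases h0 : i = 0
  · subst h0
    rw [S.start] at h
    by_cases h0' : i' = 0
    · subst h0'
      rw [S.start] at h
      simp [S.branch_inj h]
    · by_cases hl' : i' = S.len j'
      · subst hl'
        rw [S.finish] at h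
        simp [S.branch_inj h, h0']
      · exact absurd h.symm (S.inner_branch j' i' _ (by omega) (by omega))
  · by_cases hl : i = S.len j
    · subst hl
      rw [S.finish] at h
      by_cases h0' : i' = 0
      · subst h0'
        rw [S.start] at h
        simp [S.branch_inj h, h0]
      · by_cases hl' : i' = S.len j'
        · subst hl'
          rw [S.finish] at h
          simp [S.branch_inj h, h0, h0']
        · exact absurd h.symm (S.inner_branch j' i' _ (by omega) (by omega))
    · by_cases h0' : i' = 0
      · subst h0'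
        rw [S.start] at h
        exact absurd h (S.inner_branch j i _ (by omega) (by omega))
      · by_cases hl' : i' = S.len j'
        · subst hl'
          rw [S.finish] at h
          exact absurd h (S.inner_branch j i _ (by omega) (by omega))
        · obtain ⟨h1, h2⟩ := S.inner_inj j i j' i' (by omega) (by omega) (by omega) (by omega) h
          subst h1; subst h2; rfl

theorem lab_zero (j : PE) : S.lab j 0 = Sum.inl (src j) := by simp [lab]

theorem lab_len (j : PE) : S.lab j (S.len j) = Sum.inl (tgt j) := by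
  have := S.len_pos j
  unfold lab
  rw [if_neg (by omega), if_pos rfl]

theorem lab_inner {j : PE} {i : ℕ} (h0 : 0 < i) (h : i < S.len j) : S.lab j i = Sum.inr (j, i) := by
  unfold lab
  rw [if_neg (by omega), if_neg (by omega)]

/-- the edges of the paths are pairwise distinct -/
theorem edg_inj {j j' : PE} {i i' : ℕ} (hi : i < S.len j) (hi' : i' < S.len j')
    (h : S.edg j i = S.edg j' i') : j = j' ∧ i = i' := by
  have he : s(S.vtx j i, S.vtx j (i + 1)) = s(S.vtx j' i', S.vtx j' (i' + 1)) := by
    rw [← S.ends_edg j i hi, ← S.ends_edg j' i' hi', h]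
  have hp := S.len_pos j
  have hp' := S.len_pos j'
  rw [Sym2.eq_iff] at he
  rcases he with ⟨h1, h2⟩ | ⟨h1, h2⟩
  · have e1 := S.lab_eq (by omega) (by omega) h1
    have e2 := S.lab_eq (by omega) (by omega) h2
    rcases Nat.eq_zero_or_pos i with h0 | h0
    · subst h0
      rw [S.lab_zero] at e1
      rcases Nat.eq_zero_or_pos i' with h0' | h0'
      · subst h0'
        rw [S.lab_zero] at e1
        refine ⟨?_, rfl⟩
        by_cases hl : 1 < S.len j
        · rw [S.lab_inner (by omega) (by omega)] at e2
          by_cases hl' : 1 < S.len j'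
          · rw [S.lab_inner (by omega) (by omega)] at e2
            simp only [Sum.inr.injEq, Prod.mk.injEq] at e2
            exact e2.1
          · have : 0 + 1 = S.len j' := by omega
            rw [this, S.lab_len] at e2
            exact absurd e2 (by simp)
        · have h3 : 0 + 1 = S.len j := by omega
          by_cases hl' : 1 < S.len j'
          · rw [S.lab_inner (j := j') (by omega) (by omega), h3, S.lab_len] at e2
            exact absurd e2 (by simp)
          · have h4 : 0 + 1 = S.len j' := by omega
            have e3 : S.lab j (S.len j) = S.lab j' (S.len j') := by rw [← h3, ← h4]; exact e2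
            rw [S.lab_len, S.lab_len] at e3
            exact src_tgt_inj j j' (by simpa using e1) (by simpa using e3)
      · rw [S.lab_inner h0' hi'] at e1
        exact absurd e1 (by simp)
    · rw [S.lab_inner h0 hi] at e1
      rcases Nat.eq_zero_or_pos i' with h0' | h0'
      · subst h0'
        rw [S.lab_zero] at e1
        exact absurd e1 (by simp)
      · rw [S.lab_inner h0' hi'] at e1
        simpa using e1
  · have e1 := S.lab_eq (by omega) (by omega) h1
    have e2 := S.lab_eq (by omega) (by omega) h2
    exfalso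
    rcases Nat.eq_zero_or_pos i with h0 | h0
    · subst h0
      rw [S.lab_zero] at e1
      by_cases hl' : i' + 1 < S.len j'
      · rw [S.lab_inner (by omega) hl'] at e1
        exact absurd e1 (by simp)
      · have h3 : i' + 1 = S.len j' := by omega
        rw [h3, S.lab_len] at e1
        rcases Nat.eq_zero_or_pos i' with h0' | h0'
        · subst h0'
          rw [S.lab_zero] at e2
          by_cases hl : 1 < S.len j
          · rw [S.lab_inner (by omega) (by omega)] at e2
            exact absurd e2 (by simp)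
          · have h4 : 0 + 1 = S.len j := by omega
            rw [h4, S.lab_len] at e2
            exact no_reverse j j' (by simpa using e1) (by simpa using e2)
        · rw [S.lab_inner h0' hi'] at e2
          by_cases hl : 1 < S.len j
          · rw [S.lab_inner (by omega) (by omega)] at e2
            simp only [Sum.inr.injEq, Prod.mk.injEq] at e2
            obtain ⟨e3, e4⟩ := e2
            subst e3
            exact src_ne_tgt j (by simpa using e1)
          · have h4 : 0 + 1 = S.len j := by omega
            rw [h4, S.lab_len] at e2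
            exact absurd e2 (by simp)
    · rw [S.lab_inner h0 hi] at e1
      by_cases hl' : i' + 1 < S.len j'
      · rw [S.lab_inner (by omega) hl'] at e1
        simp only [Sum.inr.injEq, Prod.mk.injEq] at e1
        obtain ⟨e3, e4⟩ := e1
        subst e3
        rcases Nat.eq_zero_or_pos i' with h0' | h0'
        · subst h0'
          rw [S.lab_zero] at e2
          by_cases hl : i + 1 < S.len j
          · rw [S.lab_inner (by omega) hl] at e2
            exact absurd e2 (by simp)
          · have h4 : i + 1 = S.len j := by omega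
            rw [h4, S.lab_len] at e2
            exact src_ne_tgt j (by simpa using e2.symm)
        · rw [S.lab_inner h0' hi'] at e2
          by_cases hl : i + 1 < S.len j
          · rw [S.lab_inner (by omega) hl] at e2
            simp only [Sum.inr.injEq, Prod.mk.injEq] at e2
            omega
          · have h4 : i + 1 = S.len j := by omega
            rw [h4, S.lab_len] at e2
            exact absurd e2 (by simp)
      · have h3 : i' + 1 = S.len j' := by omega
        rw [h3, S.lab_len] at e1
        exact absurd e1 (by simp)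


section weights

variable [Fintype V] [DecidableEq V] [Fintype E] [DecidableEq E]

/-- the weight on the edges of `G` that is `a j` on the path of `j` and zero off the paths -/
def wt (a : PE → ℕ) (e : E) : ℕ :=
  ∑ j, ∑ i ∈ range (S.len j), if S.edg j i = e then a j else 0

theorem wt_edg (a : PE → ℕ) {j : PE} {i : ℕ} (hi : i < S.len j) : S.wt a (S.edg j i) = a j := by
  unfold wt
  rw [Finset.sum_eq_single j, Finset.sum_eq_single i]
  · simp
  · intro i' hi' hne
    rw [if_neg]
    intro h
    exact hne (S.edg_inj (mem_range.1 hi') hi h).2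
  · intro h
    exact absurd (mem_range.2 hi) h
  · intro j' _ hne
    apply Finset.sum_eq_zero
    intro i' hi'
    rw [if_neg]
    intro h
    exact hne (S.edg_inj (mem_range.1 hi') hi h).1
  · intro h
    exact absurd (mem_univ j) h

theorem wt_zero (a : PE → ℕ) {e : E} (h : ∀ j i, i < S.len j → S.edg j i ≠ e) : S.wt a e = 0 := by
  unfold wt
  apply Finset.sum_eq_zero
  intro j _
  apply Finset.sum_eq_zero
  intro i hi
  rw [if_neg (h j i (mem_range.1 hi))]

theorem wt_cases (a : PE → ℕ) (e : E) :
    (∃ j i, i < S.len j ∧ S.edg j i = e ∧ S.wt a e = a j) ∨ S.wt a e = 0 := by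
  by_cases h : ∃ j i, i < S.len j ∧ S.edg j i = e
  · obtain ⟨j, i, hi, he⟩ := h
    left
    refine ⟨j, i, hi, he, ?_⟩
    rw [← he]
    exact S.wt_edg a hi
  · right
    push Not at h
    exact S.wt_zero a h

theorem sum_wt (a : PE → ℕ) (T : Finset E) :
    ∑ f ∈ T, S.wt a f = ∑ j, ∑ i ∈ range (S.len j), if S.edg j i ∈ T then a j else 0 := by
  unfold wt
  rw [Finset.sum_comm]
  refine Finset.sum_congr rfl fun j _ => ?_
  rw [Finset.sum_comm]
  refine Finset.sum_congr rfl fun i _ => ?_
  rw [Finset.sum_ite_eq]

theorem mem_cut {j : PE} {i : ℕ} (hi : i < S.len j) (X : Finset V) :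
    ((if S.edg j i ∈ cut G X then 1 else 0 : ℕ) : ZMod 2) =
      (if S.vtx j i ∈ X then 1 else 0) + (if S.vtx j (i + 1) ∈ X then 1 else 0) := by
  have h1 : S.edg j i ∈ cut G X ↔ ((S.vtx j i ∈ X ∧ S.vtx j (i + 1) ∉ X) ∨
      (S.vtx j i ∉ X ∧ S.vtx j (i + 1) ∈ X)) := by
    unfold cut
    rw [mem_filter, S.ends_edg j i hi]
    constructor
    · rintro ⟨_, a, ha, b, hb, h⟩
      rw [Sym2.eq_iff] at h
      rcases h with ⟨h1, h2⟩ | ⟨h1, h2⟩
      · left; rw [h1, h2]; exact ⟨ha, hb⟩
      · right; rw [h1, h2]; exact ⟨hb, ha⟩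
    · rintro (⟨h1, h2⟩ | ⟨h1, h2⟩)
      · exact ⟨mem_univ _, _, h1, _, h2, rfl⟩
      · exact ⟨mem_univ _, _, h2, _, h1, Sym2.eq_swap⟩
  by_cases ha : S.vtx j i ∈ X <;> by_cases hb : S.vtx j (i + 1) ∈ X
  · rw [if_neg (by rw [h1]; tauto), if_pos ha, if_pos hb]; decide
  · rw [if_pos (by rw [h1]; tauto), if_pos ha, if_neg hb]; decide
  · rw [if_pos (by rw [h1]; tauto), if_neg ha, if_pos hb]; decide
  · rw [if_neg (by rw [h1]; tauto), if_neg ha, if_neg hb]; decide

theorem path_cut (j : PE) (X : Finset V) : ∀ n ≤ S.len j,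
    ((∑ i ∈ range n, (if S.edg j i ∈ cut G X then 1 else 0) : ℕ) : ZMod 2) =
      (if S.vtx j 0 ∈ X then 1 else 0) + (if S.vtx j n ∈ X then 1 else 0) := by
  intro n
  induction n with
  | zero =>
    intro _
    simp only [range_zero, sum_empty, Nat.cast_zero]
    split_ifs <;> decide
  | succ n ih =>
    intro hn
    rw [Finset.sum_range_succ, Nat.cast_add, ih (by omega), S.mem_cut (by omega) X]
    split_ifs <;> decide

theorem even_cut (a : PE → ℕ) (ha : ∀ b : PV,
    ∑ j : PE, ((a j : ℕ) : ZMod 2) * ((if src j = b then 1 else 0) + (if tgt j = b then 1 else 0)) = 0)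
    (X : Finset V) : Even (∑ f ∈ cut G X, S.wt a f) := by
  rw [← ZMod.natCast_eq_zero_iff_even, S.sum_wt, Nat.cast_sum]
  have h1 : ∀ j : PE, ((∑ i ∈ range (S.len j), (if S.edg j i ∈ cut G X then a j else 0) : ℕ) : ZMod 2) =
      ∑ b : PV, (if S.branch b ∈ X then 1 else 0) * (((a j : ℕ) : ZMod 2) *
        ((if src j = b then 1 else 0) + (if tgt j = b then 1 else 0))) := by
    intro j
    have h2 : ∑ i ∈ range (S.len j), (if S.edg j i ∈ cut G X then a j else 0) =
        a j * ∑ i ∈ range (S.len j), (if S.edg j i ∈ cut G X then 1 else 0) := by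
      rw [Finset.mul_sum]
      refine Finset.sum_congr rfl fun i _ => ?_
      split_ifs <;> simp
    rw [h2, Nat.cast_mul, S.path_cut j X _ le_rfl, S.start, S.finish]
    have h3 : ∀ b : PV, (if S.branch b ∈ X then (1 : ZMod 2) else 0) * (((a j : ℕ) : ZMod 2) *
        ((if src j = b then 1 else 0) + (if tgt j = b then 1 else 0))) =
        (if src j = b then (a j : ZMod 2) * (if S.branch b ∈ X then 1 else 0) else 0) +
        (if tgt j = b then (a j : ZMod 2) * (if S.branch b ∈ X then 1 else 0) else 0) := by
      intro b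
      by_cases h4 : src j = b <;> by_cases h5 : tgt j = b <;> by_cases h6 : S.branch b ∈ X <;>
        (simp [h4, h5, h6]; try ring)
    rw [Finset.sum_congr rfl fun b _ => h3 b, Finset.sum_add_distrib, Finset.sum_ite_eq,
      Finset.sum_ite_eq]
    simp only [mem_univ, if_true]
    ring
  rw [Finset.sum_congr rfl fun j _ => h1 j, Finset.sum_comm]
  apply Finset.sum_eq_zero
  intro b _
  rw [← Finset.mul_sum, ha b, mul_zero]

theorem wt_sum_inC (e : E) : ∑ i : Fin 5, S.wt (inC i) e = 2 * S.wt cw e := by
  unfold wt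
  rw [Finset.sum_comm, Finset.mul_sum]
  refine Finset.sum_congr rfl fun j _ => ?_
  rw [Finset.sum_comm, Finset.mul_sum]
  refine Finset.sum_congr rfl fun i _ => ?_
  by_cases h : S.edg j i = e
  · simp only [h, if_true]
    exact inC_sum j
  · simp [h]

theorem wt_inC_le (i : Fin 5) (e : E) : S.wt (inC i) e ≤ 1 := by
  rcases S.wt_cases (inC i) e with ⟨j, l, _, _, h⟩ | h
  · rw [h]; exact inC_le i j
  · omega

/-- the weight is admissible -/
theorem admissible_wt (k : ℕ) : Admissible G (fun e => k * S.wt cw e) := by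
  intro X e he
  rw [← Finset.mul_sum]
  apply Nat.mul_le_mul_left
  have h1 : ∀ i : Fin 5, S.wt (inC i) e ≤ ∑ f ∈ (cut G X).erase e, S.wt (inC i) f := by
    intro i
    have h2 := S.even_cut (inC i) (inC_even i) X
    rw [← Finset.add_sum_erase _ _ he] at h2
    have h3 := S.wt_inC_le i e
    obtain ⟨r, hr⟩ := h2
    omega
  have h2 : 2 * S.wt cw e ≤ 2 * ∑ f ∈ (cut G X).erase e, S.wt cw f := by
    rw [← S.wt_sum_inC e, Finset.mul_sum, Finset.sum_congr rfl fun f _ => (S.wt_sum_inC f).symm,
      Finset.sum_comm]
    exact Finset.sum_le_sum fun i _ => h1 i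
  omega

/-- the weight is eulerian -/
theorem eulerian_wt (k : ℕ) : Eulerian G (fun e => k * S.wt cw e) := by
  intro X
  rw [← Finset.mul_sum]
  exact (S.even_cut cw cw_even X).mul_left k


/-- edge-ends of an edge of the subdivision -/
theorem ep_edg {j : PE} {i : ℕ} (hi : i < S.len j) (v : V) :
    G.ep (S.edg j i) v =
      (if S.vtx j i = v then 1 else 0) + (if S.vtx j (i + 1) = v then 1 else 0) := by
  have hne : S.vtx j i ≠ S.vtx j (i + 1) := by
    intro h
    have h1 := S.lab_eq (by omega) (by omega) h
    rcases Nat.eq_zero_or_pos i with h0 | h0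
    · subst h0
      rw [S.lab_zero] at h1
      by_cases hl : 0 + 1 < S.len j
      · rw [S.lab_inner (by omega) hl] at h1
        exact absurd h1 (by simp)
      · have h4 : 0 + 1 = S.len j := by omega
        rw [h4, S.lab_len] at h1
        exact src_ne_tgt j (by simpa using h1)
    · rw [S.lab_inner h0 hi] at h1
      by_cases hl : i + 1 < S.len j
      · rw [S.lab_inner (by omega) hl] at h1
        simp at h1
      · have h4 : i + 1 = S.len j := by omega
        rw [h4, S.lab_len] at h1
        exact absurd h1 (by simp)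
  unfold MGraph.ep
  rw [S.ends_edg j i hi]
  by_cases h1 : S.vtx j i = v
  · subst h1
    have h2 : ¬ s(S.vtx j i, S.vtx j (i + 1)) = s(S.vtx j i, S.vtx j i) := by
      intro h3
      rw [Sym2.eq_iff] at h3
      rcases h3 with ⟨_, h4⟩ | ⟨_, h4⟩
      · exact hne h4.symm
      · exact hne h4.symm
    rw [if_neg h2, if_neg (Ne.symm hne)]
    simp
  · by_cases h2 : S.vtx j (i + 1) = v
    · subst h2
      have h2 : ¬ s(S.vtx j i, S.vtx j (i + 1)) = s(S.vtx j (i + 1), S.vtx j (i + 1)) := by
        intro h3
        rw [Sym2.eq_iff] at h3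
        rcases h3 with ⟨h4, _⟩ | ⟨h4, _⟩
        · exact hne h4
        · exact hne h4
      rw [if_neg h2, if_neg hne]
      simp
    · have h3 : ¬ s(S.vtx j i, S.vtx j (i + 1)) = s(v, v) := by
        intro h3
        rw [Sym2.eq_iff] at h3
        rcases h3 with ⟨h4, _⟩ | ⟨h4, _⟩ <;> exact h1 h4
      have h4 : v ∉ s(S.vtx j i, S.vtx j (i + 1)) := by
        rw [Sym2.mem_iff]
        rintro (h | h)
        · exact h1 h.symm
        · exact h2 h.symm
      rw [if_neg h3, if_neg h4, if_neg h1, if_neg h2]

/-- degree of a vertex in an edge set inside the subdivision -/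
theorem deg_eq (C : Finset E) (hC : ∀ e ∈ C, ∃ j i, i < S.len j ∧ S.edg j i = e) (v : V) :
    G.deg C v = ∑ j, ∑ i ∈ range (S.len j), (if S.edg j i ∈ C then 1 else 0) *
      ((if S.vtx j i = v then 1 else 0) + (if S.vtx j (i + 1) = v then 1 else 0)) := by
  rw [G.deg_eq_sum]
  have h1 : ∀ e ∈ C, G.ep e v = ∑ j, ∑ i ∈ range (S.len j),
      (if S.edg j i = e then G.ep e v else 0) := by
    intro e he
    obtain ⟨j, i, hi, hji⟩ := hC e he
    have h2 := S.wt_edg (fun _ => G.ep e v) hi
    rw [hji] at h2
    exact h2.symm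
  rw [Finset.sum_congr rfl h1, Finset.sum_comm]
  refine Finset.sum_congr rfl fun j _ => ?_
  rw [Finset.sum_comm]
  refine Finset.sum_congr rfl fun i hi => ?_
  rw [Finset.sum_ite_eq, S.ep_edg (mem_range.1 hi) v]
  split_ifs <;> simp

theorem vtx_eq_inner {j : PE} {i : ℕ} (h0 : 0 < i) (hi : i < S.len j) {j' : PE} {i' : ℕ}
    (hi' : i' ≤ S.len j') : S.vtx j' i' = S.vtx j i ↔ (j' = j ∧ i' = i) := by
  constructor
  · intro h
    have h1 := S.lab_eq hi' (by omega) h
    rw [S.lab_inner h0 hi] at h1
    have hp := S.len_pos j'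
    rcases Nat.eq_zero_or_pos i' with h2 | h2
    · subst h2
      rw [S.lab_zero] at h1
      exact absurd h1 (by simp)
    · by_cases hl : i' < S.len j'
      · rw [S.lab_inner h2 hl] at h1
        simpa using h1
      · have h4 : i' = S.len j' := by omega
        rw [h4, S.lab_len] at h1
        exact absurd h1 (by simp)
  · rintro ⟨rfl, rfl⟩
    rfl

theorem vtx_eq_branch (b : PV) {j : PE} {i : ℕ} (hi : i ≤ S.len j) :
    S.vtx j i = S.branch b ↔ ((i = 0 ∧ src j = b) ∨ (i = S.len j ∧ tgt j = b)) := by
  have hp := S.len_pos j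
  constructor
  · intro h
    rcases Nat.eq_zero_or_pos i with h2 | h2
    · subst h2
      rw [S.start] at h
      exact Or.inl ⟨rfl, S.branch_inj h⟩
    · by_cases hl : i < S.len j
      · exact absurd h (S.inner_branch j i b h2 hl)
      · have h4 : i = S.len j := by omega
        rw [h4, S.finish] at h
        exact Or.inr ⟨h4, S.branch_inj h⟩
  · rintro (⟨rfl, rfl⟩ | ⟨rfl, rfl⟩)
    · exact S.start j
    · exact S.finish j

/-- degree at an inner vertex of a path -/
theorem deg_inner (C : Finset E) (hC : ∀ e ∈ C, ∃ j i, i < S.len j ∧ S.edg j i = e)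
    (j : PE) (i : ℕ) (hi : i + 1 < S.len j) :
    G.deg C (S.vtx j (i + 1)) = (if S.edg j i ∈ C then 1 else 0) +
      (if S.edg j (i + 1) ∈ C then 1 else 0) := by
  rw [S.deg_eq C hC]
  have h1 : ∀ j' : PE, ∀ i' ∈ range (S.len j'), (if S.edg j' i' ∈ C then 1 else 0) *
      ((if S.vtx j' i' = S.vtx j (i + 1) then 1 else 0) +
        (if S.vtx j' (i' + 1) = S.vtx j (i + 1) then 1 else 0)) =
      (if i' = i + 1 then (if j' = j then (if S.edg j (i + 1) ∈ C then 1 else 0) else 0) else 0) +
      (if i' = i then (if j' = j then (if S.edg j i ∈ C then 1 else 0) else 0) else 0) := by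
    intro j' i' hi'
    rw [mem_range] at hi'
    have h2 := S.vtx_eq_inner (j := j) (i := i + 1) (by omega) hi (j' := j') (i' := i') (by omega)
    have h3 := S.vtx_eq_inner (j := j) (i := i + 1) (by omega) hi (j' := j') (i' := i' + 1)
      (by omega)
    have e2 : (if S.vtx j' i' = S.vtx j (i + 1) then 1 else 0 : ℕ) =
        if j' = j ∧ i' = i + 1 then 1 else 0 := by simp only [h2]
    have e3 : (if S.vtx j' (i' + 1) = S.vtx j (i + 1) then 1 else 0 : ℕ) =
        if j' = j ∧ i' + 1 = i + 1 then 1 else 0 := by simp only [h3]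
    rw [e2, e3]
    by_cases hj : j' = j
    · subst hj
      by_cases h4 : i' = i + 1
      · subst h4
        simp
      · by_cases h5 : i' = i
        · subst h5
          simp
        · simp [h4, h5]
    · simp [hj]
  rw [Finset.sum_congr rfl fun j' _ => Finset.sum_congr rfl (h1 j')]
  rw [Finset.sum_eq_single j]
  · have m1 : i + 1 ∈ range (S.len j) := by rw [mem_range]; omega
    have m2 : i ∈ range (S.len j) := by rw [mem_range]; omega
    rw [Finset.sum_add_distrib, Finset.sum_ite_eq', Finset.sum_ite_eq']
    simp only [m1, m2, if_true]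
    ring
  · intro j' _ hne
    apply Finset.sum_eq_zero
    intro i' _
    simp [hne]
  · intro h
    exact absurd (mem_univ j) h

/-- a set of edges with all degrees 0 or 2 contains all or none of the edges of a path -/
theorem all_or_none (C : Finset E) (hC : ∀ e ∈ C, ∃ j i, i < S.len j ∧ S.edg j i = e)
    (hdeg : ∀ v, G.deg C v = 0 ∨ G.deg C v = 2) (j : PE) : ∀ i < S.len j,
    (S.edg j i ∈ C ↔ S.edg j 0 ∈ C) := by
  intro i
  induction i with
  | zero => intro _; rfl
  | succ i ih =>
    intro hi
    rw [← ih (by omega)]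
    have h1 := S.deg_inner C hC j i hi
    have h2 := hdeg (S.vtx j (i + 1))
    rw [h1] at h2
    by_cases h3 : S.edg j i ∈ C <;> by_cases h4 : S.edg j (i + 1) ∈ C
    · tauto
    · rw [if_pos h3, if_neg h4] at h2; omega
    · rw [if_neg h3, if_pos h4] at h2; omega
    · tauto

/-- degree at a branch vertex -/
theorem deg_branch (C : Finset E) (hC : ∀ e ∈ C, ∃ j i, i < S.len j ∧ S.edg j i = e)
    (hdeg : ∀ v, G.deg C v = 0 ∨ G.deg C v = 2) (b : PV) :
    G.deg C (S.branch b) = ∑ j, (if S.edg j 0 ∈ C then 1 else 0) *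
      ((if src j = b then 1 else 0) + (if tgt j = b then 1 else 0)) := by
  rw [S.deg_eq C hC]
  refine Finset.sum_congr rfl fun j _ => ?_
  have hp := S.len_pos j
  have h1 : ∀ i ∈ range (S.len j), (if S.edg j i ∈ C then 1 else 0) *
      ((if S.vtx j i = S.branch b then 1 else 0) +
        (if S.vtx j (i + 1) = S.branch b then 1 else 0)) =
      (if i = 0 then (if S.edg j 0 ∈ C then 1 else 0) * (if src j = b then 1 else 0) else 0) +
      (if i = S.len j - 1 then (if S.edg j 0 ∈ C then 1 else 0) * (if tgt j = b then 1 else 0)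
        else 0) := by
    intro i hi
    rw [mem_range] at hi
    have h2 := S.vtx_eq_branch b (j := j) (i := i) (by omega)
    have h3 := S.vtx_eq_branch b (j := j) (i := i + 1) (by omega)
    have h4 := S.all_or_none C hC hdeg j i hi
    have h5 : (if S.vtx j i = S.branch b then 1 else 0 : ℕ) =
        if i = 0 then (if src j = b then 1 else 0) else 0 := by
      by_cases h6 : i = 0
      · rw [if_pos h6]
        by_cases h7 : src j = b
        · rw [if_pos h7, if_pos (h2.2 (Or.inl ⟨h6, h7⟩))]
        · rw [if_neg h7, if_neg]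
          rw [h2]
          rintro (⟨_, h8⟩ | ⟨h8, _⟩)
          · exact h7 h8
          · omega
      · rw [if_neg h6, if_neg]
        rw [h2]
        rintro (⟨h8, _⟩ | ⟨h8, _⟩) <;> omega
    have h6 : (if S.vtx j (i + 1) = S.branch b then 1 else 0 : ℕ) =
        if i = S.len j - 1 then (if tgt j = b then 1 else 0) else 0 := by
      by_cases h6 : i = S.len j - 1
      · rw [if_pos h6]
        by_cases h7 : tgt j = b
        · rw [if_pos h7, if_pos (h3.2 (Or.inr ⟨by omega, h7⟩))]
        · rw [if_neg h7, if_neg]
          rw [h3]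
          rintro (⟨h8, _⟩ | ⟨_, h8⟩)
          · omega
          · exact h7 h8
      · rw [if_neg h6, if_neg]
        rw [h3]
        rintro (⟨h8, _⟩ | ⟨h8, _⟩) <;> omega
    have h7 : (if S.edg j i ∈ C then 1 else 0 : ℕ) = if S.edg j 0 ∈ C then 1 else 0 := by
      by_cases h8 : S.edg j 0 ∈ C
      · rw [if_pos h8, if_pos (h4.2 h8)]
      · rw [if_neg h8, if_neg (fun h9 => h8 (h4.1 h9))]
    rw [h5, h6, h7, mul_add]
    congr 1
    · split_ifs <;> simp
    · split_ifs <;> simp
  have m1 : 0 ∈ range (S.len j) := by rw [mem_range]; omega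
  have m2 : S.len j - 1 ∈ range (S.len j) := by rw [mem_range]; omega
  rw [Finset.sum_congr rfl h1, Finset.sum_add_distrib, Finset.sum_ite_eq', Finset.sum_ite_eq',
    mul_add]
  simp only [m1, m2, if_true]

end weights

end PetersenSubdivision

/-- sums over the edges of the Petersen graph at an outer vertex -/
theorem outer_sum (x : PE → ℕ) : ∀ i : Fin 5,
    ∑ j, x j * ((if src j = (i, false) then 1 else 0) + (if tgt j = (i, false) then 1 else 0)) =
      x (i, 0) + x (i + 4, 0) + x (i, 1) := by
  intro i
  fin_cases i <;> simp [Fintype.sum_prod_type, Fin.sum_univ_succ, src, tgt] <;> ring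

/-- sums over the edges of the Petersen graph at an inner vertex -/
theorem inner_sum (x : PE → ℕ) : ∀ i : Fin 5,
    ∑ j, x j * ((if src j = (i, true) then 1 else 0) + (if tgt j = (i, true) then 1 else 0)) =
      x (i, 2) + x (i + 3, 2) + x (i, 1) := by
  intro i
  fin_cases i <;> simp [Fintype.sum_prod_type, Fin.sum_univ_succ, src, tgt] <;> ring


section main

variable {V E : Type} [Fintype V] [DecidableEq V] [Fintype E] [DecidableEq E]

theorem countP_sum (F : Multiset (Finset E)) (e : E) :
    F.countP (fun C => e ∈ C) = (F.map (fun C => if e ∈ C then 1 else 0)).sum := by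
  induction F using Multiset.induction_on with
  | empty => simp
  | cons C F ih =>
    rw [Multiset.countP_cons, ih, Multiset.map_cons, Multiset.sum_cons]
    ring

/-- an alternating circuit uses no or four spokes -/
theorem four_dvd (a o n : Fin 5 → ℕ) (ha : ∀ i, a i ≤ 1) (h1 : ∀ i, a i = o i + o (i + 4))
    (h2 : ∀ i, a i = n i + n (i + 3)) : 4 ∣ a 0 + a 1 + a 2 + a 3 + a 4 := by
  have a0 := ha 0
  have a1 := ha 1
  have a2 := ha 2
  have a3 := ha 3
  have a4 := ha 4
  have o0 : a 0 = o 0 + o 4 := h1 0
  have o1 : a 1 = o 1 + o 0 := h1 1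
  have o2 : a 2 = o 2 + o 1 := h1 2
  have o3 : a 3 = o 3 + o 2 := h1 3
  have o4 : a 4 = o 4 + o 3 := h1 4
  have n0 : a 0 = n 0 + n 3 := h2 0
  have n1 : a 1 = n 1 + n 4 := h2 1
  have n2 : a 2 = n 2 + n 0 := h2 2
  have n3 : a 3 = n 3 + n 1 := h2 3
  have n4 : a 4 = n 4 + n 2 := h2 4
  have key : a 0 + a 1 + a 2 + a 3 + a 4 = 0 ∨ a 0 + a 1 + a 2 + a 3 + a 4 = 4 := by
    have b0 : a 0 = 0 ∨ a 0 = 1 := by omega
    have b1 : a 1 = 0 ∨ a 1 = 1 := by omega
    have b2 : a 2 = 0 ∨ a 2 = 1 := by omega
    have b3 : a 3 = 0 ∨ a 3 = 1 := by omega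
    have b4 : a 4 = 0 ∨ a 4 = 1 := by omega
    rcases b0 with b0 | b0 <;> rcases b1 with b1 | b1 <;> rcases b2 with b2 | b2 <;>
      rcases b3 with b3 | b3 <;> rcases b4 with b4 | b4 <;> omega
  rcases key with h | h <;> rw [h] <;> decide

/-- no faithful circuit cover for odd multiples of the weight -/
theorem no_cover (G : MGraph V E) (S : PetersenSubdivision G) (k : ℕ) (hk : Odd k) :
    ¬ HasCover G (fun e => k * S.wt cw e) := by
  rintro ⟨F, hF, hcov⟩
  have hcov : ∀ e, F.countP (fun C => e ∈ C) = k * S.wt cw e := hcov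
  have hin : ∀ C ∈ F, ∀ e ∈ C, ∃ j i, i < S.len j ∧ S.edg j i = e := by
    intro C hC e he
    have h1 : 0 < F.countP (fun C => e ∈ C) := Multiset.countP_pos.2 ⟨C, hC, he⟩
    rw [hcov] at h1
    rcases S.wt_cases cw e with ⟨j, i, hi, hji, _⟩ | h2
    · exact ⟨j, i, hi, hji⟩
    · rw [h2] at h1; omega
  set x : Finset E → PE → ℕ := fun C j => if S.edg j 0 ∈ C then 1 else 0 with hx
  have hsum : ∀ j, (F.map (fun C => x C j)).sum = k * cw j := by
    intro j
    rw [hx, ← countP_sum, hcov, S.wt_edg cw (S.len_pos j)]
  have hle : ∀ C j, x C j ≤ 1 := by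
    intro C j
    simp only [hx]
    split_ifs <;> omega
  have hout : ∀ C ∈ F, ∀ i : Fin 5, x C (i, 0) + x C (i + 4, 0) + x C (i, 1) = 0 ∨
      x C (i, 0) + x C (i + 4, 0) + x C (i, 1) = 2 := by
    intro C hC i
    have h1 := S.deg_branch C (hin C hC) (hF C hC).2.1 (i, false)
    have h2 := outer_sum (x C) i
    simp only [hx] at h2 ⊢
    rw [← h2, ← h1]
    exact (hF C hC).2.1 _
  have hinn : ∀ C ∈ F, ∀ i : Fin 5, x C (i, 2) + x C (i + 3, 2) + x C (i, 1) = 0 ∨
      x C (i, 2) + x C (i + 3, 2) + x C (i, 1) = 2 := by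
    intro C hC i
    have h1 := S.deg_branch C (hin C hC) (hF C hC).2.1 (i, true)
    have h2 := inner_sum (x C) i
    simp only [hx] at h2 ⊢
    rw [← h2, ← h1]
    exact (hF C hC).2.1 _
  have heq1 : ∀ C ∈ F, ∀ i : Fin 5, x C (i, 1) = x C (i, 0) + x C (i + 4, 0) := by
    intro C hC i
    by_contra hne
    have h1 : ∀ D ∈ F, x D (i, 1) ≤ x D (i, 0) + x D (i + 4, 0) := by
      intro D hD
      have := hout D hD i
      have := hle D (i, 1)
      omega
    have h2 := Multiset.sum_lt_sum h1 ⟨C, hC, lt_of_le_of_ne (h1 C hC) hne⟩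
    rw [Multiset.sum_map_add, hsum, hsum, hsum] at h2
    simp only [cw] at h2
    omega
  have heq2 : ∀ C ∈ F, ∀ i : Fin 5, x C (i, 1) = x C (i, 2) + x C (i + 3, 2) := by
    intro C hC i
    by_contra hne
    have h1 : ∀ D ∈ F, x D (i, 1) ≤ x D (i, 2) + x D (i + 3, 2) := by
      intro D hD
      have := hinn D hD i
      have := hle D (i, 1)
      omega
    have h2 := Multiset.sum_lt_sum h1 ⟨C, hC, lt_of_le_of_ne (h1 C hC) hne⟩
    rw [Multiset.sum_map_add, hsum, hsum, hsum] at h2
    simp only [cw] at h2
    omega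
  have hdvd : 4 ∣ (F.map (fun C => x C (0, 1) + x C (1, 1) + x C (2, 1) + x C (3, 1) +
      x C (4, 1))).sum := by
    apply Multiset.dvd_sum
    intro y hy
    rw [Multiset.mem_map] at hy
    obtain ⟨C, hC, rfl⟩ := hy
    exact four_dvd (fun i => x C (i, 1)) (fun i => x C (i, 0)) (fun i => x C (i, 2))
      (fun i => hle C _) (heq1 C hC) (heq2 C hC)
  rw [Multiset.sum_map_add, Multiset.sum_map_add, Multiset.sum_map_add, Multiset.sum_map_add,
    hsum, hsum, hsum, hsum, hsum] at hdvd
  simp only [cw] at hdvd
  obtain ⟨r, hr⟩ := hk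
  omega

/-- Let `k` be odd and let `G` be a finite graph (parallel edges allowed) that contains a subdivision
of the Petersen graph. Then there is an admissible eulerian weight with values in `{0, k, 2k}` that
has no faithful circuit cover. In particular `G` does not have property `P_k`. -/
theorem result (G : MGraph V E) (S : PetersenSubdivision G) (k : ℕ) (hk : Odd k) :
    (∃ w : E → ℕ, (∀ e, w e = 0 ∨ w e = k ∨ w e = 2 * k) ∧ Admissible G w ∧ Eulerian G w ∧
      ¬ HasCover G w) ∧ ¬ PropertyP k G := by
  have h1 := S.admissible_wt k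
  have h2 := S.eulerian_wt k
  have h3 := no_cover G S k hk
  refine ⟨⟨_, ?_, h1, h2, h3⟩, fun hP => h3 (hP _ (fun e => Dvd.intro _ rfl) h1 h2)⟩
  intro e
  rcases S.wt_cases cw e with ⟨⟨i, t⟩, l, _, _, h⟩ | h
  · rw [h]
    fin_cases t
    · right; left; simp [cw]
    · right; right; simp [cw]; ring
    · right; left; simp [cw]
  · left
    rw [h, mul_zero]

end main

end Pool.Agent.Results.MP_3c540c_co.OddMultiples
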